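import Pool.Agent.H29.ENR.Stmts

/-!
# Board enr, row CHP
-/

set_option autoImplicit false

namespace Pool.ENR

open Polynomial

/-- Powers of a singular matrix over `ZMod (p ^ c)`. -/
theorem chp_thm (h1 : FLDStmt) (h2 : LIFStmt) : CHPStmt := by
  intro p b c hp hc n _ _ hcard M hM
  have hpc : p ∣ p ^ c := dvd_pow_self p (by omega)
  have : Fact (1 < p ^ c) := ⟨Nat.one_lt_pow (by omega) hp.out.one_lt⟩
  have : NeZero (p ^ c) := ⟨pow_ne_zero c hp.out.ne_zero⟩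
  set φ : ZMod (p ^ c) →+* ZMod p := ZMod.castHom hpc (ZMod p) with hφ
  have hker : ∀ a : ZMod (p ^ c), φ a = 0 → ∃ q : ZMod (p ^ c), a = p * q := by
    intro a ha
    have h3 : ((a.val : ℕ) : ZMod (p ^ c)) = a := ZMod.natCast_zmod_val a
    have h4 : ((a.val : ℕ) : ZMod p) = 0 := by
      rw [← ha, ← map_natCast φ, h3]
    rw [ZMod.natCast_eq_zero_iff] at h4
    obtain ⟨q, hq⟩ := h4
    exact ⟨(q : ZMod (p ^ c)), by rw [← h3, hq]; push_cast; rfl⟩
  have hunit : ∀ a : ZMod (p ^ c), ¬ IsUnit a → φ a = 0 := by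
    intro a ha
    have h3 : ((a.val : ℕ) : ZMod (p ^ c)) = a := ZMod.natCast_zmod_val a
    rw [← h3, ZMod.isUnit_iff_coprime] at ha
    rw [← h3, map_natCast, ZMod.natCast_eq_zero_iff]
    by_contra h5
    exact ha (Nat.Coprime.pow_right c ((Nat.Prime.coprime_iff_not_dvd hp.out).2 h5).symm)
  set χ := M.charpoly with hχ
  have hmon : χ.Monic := M.charpoly_monic
  have hdeg : χ.natDegree = p ^ b + 1 := by
    rw [hχ, M.charpoly_natDegree_eq_dim, hcard]
  have hc0 : φ (χ.coeff 0) = 0 := by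
    apply hunit
    intro h
    apply hM
    rw [Matrix.det_eq_sign_charpoly_coeff]
    exact ((isUnit_one.neg).pow _).mul h
  have hX : X ∣ χ.map φ := by rw [X_dvd_iff, coeff_map, hc0]
  obtain ⟨g, hg⟩ := hX
  have hgm : g.Monic := monic_X.of_mul_monic_left (by rw [← hg]; exact hmon.map φ)
  have hgd : g.natDegree = p ^ b := by
    have h3 := monic_X.natDegree_mul hgm
    rw [← hg, hmon.natDegree_map, hdeg, natDegree_X] at h3
    omega
  obtain ⟨m, hm, hdvd⟩ := h1 p g hgm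
  rw [hgd] at hdvd
  have hexp : (X * (X ^ m - 1) : (ZMod p)[X]) ^ (p ^ b) =
      X ^ (p ^ b) * (X ^ (m * p ^ b) - 1) := by
    rw [mul_pow, sub_pow_char_pow, one_pow, ← pow_mul]
  rw [hexp] at hdvd
  obtain ⟨q, hq⟩ := hdvd
  have hq2 : χ.map φ * q = X ^ (p ^ b + 1) * (X ^ (m * p ^ b) - 1) := by
    rw [hg, mul_assoc, ← hq]
    ring
  obtain ⟨Q, hQ⟩ := map_surjective φ (ZMod.ringHom_surjective φ) q
  have hdiff : (χ * Q - X ^ (p ^ b + 1) * (X ^ (m * p ^ b) - 1)).map φ = 0 := by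
    rw [Polynomial.map_sub, Polynomial.map_mul, hQ, hq2]
    simp
  have hH : ∃ H : (ZMod (p ^ c))[X], χ * Q - X ^ (p ^ b + 1) * (X ^ (m * p ^ b) - 1) =
      (p : (ZMod (p ^ c))[X]) * H := by
    have h3 : C (p : ZMod (p ^ c)) ∣ χ * Q - X ^ (p ^ b + 1) * (X ^ (m * p ^ b) - 1) := by
      rw [C_dvd_iff_dvd_coeff]
      intro i
      have h4 : φ ((χ * Q - X ^ (p ^ b + 1) * (X ^ (m * p ^ b) - 1)).coeff i) = 0 := by
        rw [← coeff_map, hdiff, coeff_zero]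
      obtain ⟨q', hq'⟩ := hker _ h4
      exact ⟨q', hq'⟩
    obtain ⟨H, hH⟩ := h3
    exact ⟨H, by rw [hH]; simp⟩
  obtain ⟨H, hH⟩ := hH
  have hB : (p : (ZMod (p ^ c))[X]) ^ c = 0 := by
    have h3 : ((p ^ c : ℕ) : ZMod (p ^ c)) = 0 := ZMod.natCast_self (p ^ c)
    have h4 : ((p ^ c : ℕ) : (ZMod (p ^ c))[X]) = C ((p ^ c : ℕ) : ZMod (p ^ c)) := by simp
    rw [← Nat.cast_pow, h4, h3, C_0]
  obtain ⟨t', ht'⟩ := h2 ((ZMod (p ^ c))[X] ⧸ Ideal.span {χ}) p c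
    (Ideal.Quotient.mk (Ideal.span {χ}) X) (p ^ b + 1) (m * p ^ b) hp.out hc (by
      rw [← map_natCast (Ideal.Quotient.mk (Ideal.span {χ})), ← map_pow, hB, map_zero]) ⟨
      Ideal.Quotient.mk (Ideal.span {χ}) (-H), by
        rw [← map_natCast (Ideal.Quotient.mk (Ideal.span {χ})), ← map_pow, ← map_pow,
          ← map_one (Ideal.Quotient.mk (Ideal.span {χ})), ← map_sub, ← map_mul, ← map_mul,
          Ideal.Quotient.mk_eq_mk_iff_sub_mem, Ideal.mem_span_singleton]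
        refine ⟨Q, ?_⟩
        linear_combination -hH⟩
  rw [← map_pow, ← map_pow, Ideal.Quotient.mk_eq_mk_iff_sub_mem, Ideal.mem_span_singleton] at ht'
  obtain ⟨R, hR⟩ := ht'
  refine ⟨m, t', hm, ?_⟩
  have h5 := congrArg (aeval M) hR
  rw [map_mul, hχ, Matrix.aeval_self_charpoly, zero_mul, map_sub, map_pow, map_pow, aeval_X,
    sub_eq_zero, mul_assoc, ← pow_add] at h5
  have h6 : b + (c - 1) = b + c - 1 := by omega
  rw [h6] at h5
  exact h5

end Pool.ENR
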