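import Pool.Agent.H36.ENR.Stmts2

/-!
# Board enr, row DED: independence of the powers of a field automorphism
-/

set_option autoImplicit false

namespace Pool.ENR

theorem ded_thm : DEDStmt := by
  intro F _ φ n a hn hn0 ha
  by_contra hcon
  push Not at hcon
  let f : Fin n → (F →* F) := fun l => ((φ ^ (l : ℕ) : F ≃+* F) : F →* F)
  have hf : Function.Injective f := by
    intro i j hij
    have h1 : φ ^ (i : ℕ) = φ ^ (j : ℕ) := by
      ext x
      exact DFunLike.congr_fun hij x
    have h2 := pow_injOn_Iio_orderOf (x := φ) (Set.mem_Iio.2 (hn ▸ i.2))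
      (Set.mem_Iio.2 (hn ▸ j.2)) h1
    exact Fin.ext h2
  have hli := (linearIndependent_monoidHom F F).comp f hf
  rw [Fintype.linearIndependent_iff] at hli
  refine ha (hli (fun i => a i) ?_ ⟨0, hn0⟩)
  funext x
  have h3 := hcon x
  rw [Finset.sum_range] at h3
  rw [Finset.sum_apply]
  exact h3

end Pool.ENR
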