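import Pool.Agent.H29.ENR.Stmts6
import Pool.Agent.H45.ENR.COP

/-!
# Board enr, row PB2
-/

set_option autoImplicit false

namespace Pool.ENR

open Pool.Agent.H81.ENG

theorem pb2_thm : PB2Stmt := by
  intro T _ _ p b N α R hp hR hbot hc hN d hL
  rcases Nat.eq_zero_or_pos b with rfl | hb
  · rw [pow_zero]
    exact one_dvd _
  obtain ⟨v, rfl⟩ : ∃ v, b = v + 1 := ⟨b - 1, by omega⟩
  by_contra hv
  have hk : 0 < p ^ (v + 1) := pow_pos hp.pos _
  set τ : MulAut R := restr α R hR with hτ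
  have hτN : τ ^ (p ^ N) = 1 := by
    ext x
    rw [hτ, restr_pow_apply, hN]
    rfl
  let φ : TSq τ (p ^ (v + 1)) →* (Fin (p ^ (v + 1)) → R) :=
    { toFun := fun x i => (x : ℤ → R) ((i : ℕ) : ℤ)
      map_one' := rfl
      map_mul' := fun _ _ => rfl }
  have hφ : Function.Injective φ := by
    intro x y h
    apply Subtype.ext
    funext i
    have hk' : (0 : ℤ) < ((p ^ (v + 1) : ℕ) : ℤ) := by exact_mod_cast hk
    have h1 : 0 ≤ i % ((p ^ (v + 1) : ℕ) : ℤ) := Int.emod_nonneg _ hk'.ne'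
    have h2 : i % ((p ^ (v + 1) : ℕ) : ℤ) < ((p ^ (v + 1) : ℕ) : ℤ) := Int.emod_lt_of_pos _ hk'
    obtain ⟨e, he⟩ := Int.eq_ofNat_of_zero_le h1
    have h3 : e < p ^ (v + 1) := by
      rw [he] at h2
      exact_mod_cast h2
    have h4 : i = (e : ℤ) + (i / ((p ^ (v + 1) : ℕ) : ℤ)) * ((p ^ (v + 1) : ℕ) : ℤ) := by
      have := Int.emod_add_ediv_mul i ((p ^ (v + 1) : ℕ) : ℤ)
      rw [he] at this
      exact this.symm
    have h5 : (x : ℤ → R) (e : ℤ) = (y : ℤ → R) (e : ℤ) := congrFun h ⟨e, h3⟩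
    rw [h4, TSq_zmul, TSq_zmul, h5]
  have : Finite (TSq τ (p ^ (v + 1))) := Finite.of_injective φ hφ
  have hcard : ¬ p ∣ Nat.card (TSq τ (p ^ (v + 1))) := by
    intro h
    have h1 : Nat.card (TSq τ (p ^ (v + 1))) ∣ Nat.card (Fin (p ^ (v + 1)) → R) :=
      Subgroup.card_dvd_of_injective φ hφ
    rw [Nat.card_fun, Nat.card_fin] at h1
    exact hc (hp.dvd_of_dvd_pow (dvd_trans h h1))
  have hL' : SL (tsh τ (p ^ (v + 1))) d := by
    let F : TSq τ (p ^ (v + 1)) →* TSq α (p ^ (v + 1)) :=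
      { toFun := fun ξ => ⟨fun i => ((ξ : ℤ → R) i : T), fun i =>
          congrArg Subtype.val (ξ.2 i)⟩
        map_one' := rfl
        map_mul' := fun _ _ => rfl }
    refine SL.of_inj F ?_ (fun _ => rfl) hL
    intro ξ η h
    apply Subtype.ext
    funext i
    apply Subtype.ext
    exact congrFun (congrArg Subtype.val h) i
  have hN' : (tsh τ (p ^ (v + 1))) ^ (p ^ (v + 1 + N)) = 1 := by
    apply MulEquiv.ext
    intro ξ
    apply Subtype.ext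
    funext i
    rw [tsh_pow_apply]
    have h1 := TSq_zmul τ (p ^ (v + 1)) ξ ((p ^ N : ℕ) : ℤ) i
    have h2 : i + ((p ^ N : ℕ) : ℤ) * ((p ^ (v + 1) : ℕ) : ℤ) =
        i + ((p ^ (v + 1 + N) : ℕ) : ℤ) := by
      push_cast
      ring
    rw [h2, zpow_natCast, hτN] at h1
    exact h1
  have h1 := coprime_fix _ hp hcard hN' hL' hv
  obtain ⟨c, hc1⟩ := Subgroup.ne_bot_iff_exists_ne_one.1 hbot
  have h2 := tsh_pow_apply τ (p ^ (v + 1)) (p ^ v) (one0 τ (p ^ (v + 1)) hk c) 0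
  rw [h1] at h2
  have h3 : ((one0 τ (p ^ (v + 1)) hk c : TSq τ (p ^ (v + 1))) : ℤ → R) 0 =
      ((one0 τ (p ^ (v + 1)) hk c : TSq τ (p ^ (v + 1))) : ℤ → R) (0 + (p ^ v : ℕ)) := h2
  rw [one0_zero, zero_add] at h3
  apply hc1
  rw [h3]
  show (if ((p ^ v : ℕ) : ℤ) % ((p ^ (v + 1) : ℕ) : ℤ) = 0 then
    (τ ^ (((p ^ v : ℕ) : ℤ) / ((p ^ (v + 1) : ℕ) : ℤ))) c else 1) = 1
  refine if_neg fun h => ?_
  have h4 : ((p ^ (v + 1) : ℕ) : ℤ) ∣ ((p ^ v : ℕ) : ℤ) := Int.dvd_of_emod_eq_zero h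
  have h6 : p ^ (v + 1) ∣ p ^ v := by exact_mod_cast h4
  exact absurd (Nat.le_of_dvd (pow_pos hp.pos _) h6)
    (not_le.2 (Nat.pow_lt_pow_right hp.one_lt (Nat.lt_succ_self v)))

end Pool.ENR
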