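import Pool.Agent.H29.ENR.Stmts

/-!
# Board enr, row PIG
-/

set_option autoImplicit false

namespace Pool.ENR

open Pool.Agent.H81.ENG

/-- The `π`-part, from row OPG. -/
theorem pig_thm (h1 : OPGStmt) : PIGStmt := by
  classical
  intro G _ _ π hπ d hL
  have key : ∀ g : G, ∃ n : ℕ, 0 < n ∧ (∀ p ∈ π, ¬ p ∣ n) ∧ g ^ (ed d * n) ∈ Fit G := by
    intro g
    have h0 : (g ^ ed d) ^ (orderOf g) ∈ Fit G := by
      rw [← pow_mul, mul_comm, pow_mul, pow_orderOf_eq_one, one_pow]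
      exact Subgroup.one_mem _
    obtain ⟨m, hm0, hmF, hmd⟩ := exists_min_exp (Fit G) (orderOf_pos g) h0
    refine ⟨m, hm0, ?_, by rw [pow_mul]; exact hmF⟩
    intro p hp hpm
    obtain ⟨n, hn, hg⟩ := p_part_aux (hπ p hp).1
      (fun y N hy v hv => h1 p G (hπ p hp).1 (hπ p hp).2 d hL y N hy v hv) g
    rw [pow_mul] at hg
    exact hn (dvd_trans hpm (hmd n hg))
  choose f hf0 hfp hfF using key
  have := Fintype.ofFinite G
  refine ⟨∏ g : G, f g, Finset.prod_pos (fun g _ => hf0 g), ?_, ?_⟩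
  · intro p hp hpd
    obtain ⟨g, -, hg⟩ := (Prime.dvd_finsetProd_iff (hπ p hp).1.prime f).mp hpd
    exact hfp g p hp hg
  · intro g
    obtain ⟨k, hk⟩ := Finset.dvd_prod_of_mem f (Finset.mem_univ g)
    rw [hk, ← mul_assoc, pow_mul]
    exact Subgroup.pow_mem _ (hfF g) k

end Pool.ENR
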