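import Pool.Agent.H29.ENR.Stmts5
import Pool.Agent.H44.ENR.CP3

/-!
# Board enr, row CP4 (a copy of helper44's row CP3 with the laws of all automorphisms)
-/

set_option autoImplicit false
set_option linter.style.haveILetI false

namespace Pool.ENR

open Pool.Agent.H81.ENG

namespace CP4

section iso

variable {T T' : Type} [Group T] [Group T']

theorem sl_iso (e : T ≃* T') (σ : MulAut T') (t : T) {d : ℕ}
    (h : SL (MulAut.conj (e t) * σ) d) : SL (MulAut.conj t * CP3.pb e σ) d := by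
  refine SL.of_inj e.toMonoidHom e.injective ?_ h
  intro x
  show e ((MulAut.conj t * CP3.pb e σ) x) = (MulAut.conj (e t) * σ) (e x)
  rw [MulAut.mul_apply, MulAut.mul_apply, MulAut.conj_apply, MulAut.conj_apply, map_mul,
    map_mul, map_inv, CP3.e_pb]

theorem good4_iso {p : ℕ} (e : T ≃* T') (hg : Good4 p T) : Good4 p T' := by
  intro σ N m hN hm
  have h1 : CP3.pb e σ ^ (p ^ N) = 1 := by
    ext t
    apply e.injective
    rw [CP3.pb_pow, hN]
    rfl
  have h2 : CP3.pb e σ ^ (p ^ m) ≠ 1 := by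
    intro h
    apply hm
    ext t
    have h3 := CP3.pb_pow e σ (p ^ m) (e.symm t)
    rw [h, MulEquiv.apply_symm_apply] at h3
    rw [← h3]
    simp
  rcases hg (CP3.pb e σ) N m h1 h2 with hsec | ⟨t, c, hmc, hcyc, hlaw⟩ | hw | ⟨hw, hlaw⟩
  · left
    obtain ⟨Γ, D, a1, a2, a3, a4, a5, a6, x, hx, a7⟩ := hsec
    have hinj : Function.Injective e.toMonoidHom := e.injective
    refine ⟨Γ.map e.toMonoidHom, D.map e.toMonoidHom, ?_, ?_, Subgroup.map_mono a3, ?_, ?_, ?_,
      e x, ?_, ?_⟩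
    · intro y
      rw [Subgroup.mem_map_equiv, Subgroup.mem_map_equiv, a1, CP3.pb_apply,
        MulEquiv.apply_symm_apply]
    · intro y
      rw [Subgroup.mem_map_equiv, Subgroup.mem_map_equiv, a2, CP3.pb_apply,
        MulEquiv.apply_symm_apply]
    · intro g hgm y hy
      rw [Subgroup.mem_map_equiv] at hgm hy ⊢
      rw [map_mul, map_mul, map_inv]
      exact a4 _ hgm _ hy
    · rw [Subgroup.relIndex_map_map_of_injective _ _ hinj]
      exact a5
    · rw [Subgroup.relIndex_map_map_of_injective _ _ hinj]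
      exact a6
    · rw [Subgroup.mem_map_equiv, MulEquiv.symm_apply_apply]
      exact hx
    · rw [Subgroup.mem_map_equiv, ← CP3.pb_pow, ← map_inv, ← map_mul,
        MulEquiv.symm_apply_apply]
      exact a7
  · right
    left
    refine ⟨e t, c, hmc, ?_, fun d hd hsl => hlaw d (CP3.glaw e hd) (fun t =>
      sl_iso e σ t (hsl (e t)))⟩
    have hc : ∀ x : T, (MulAut.conj (e t) * σ) (e x) = e ((MulAut.conj t * CP3.pb e σ) x) := by
      intro x
      rw [MulAut.mul_apply, MulAut.mul_apply, MulAut.conj_apply, MulAut.conj_apply, map_mul,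
        map_mul, map_inv, CP3.e_pb]
    obtain ⟨s, n, lam, j, u, b1, b2, b3, b4, b5, b6, b7⟩ := hcyc
    refine ⟨e s, e n, lam, j, u, ?_, ?_, b3, ?_, b5, ?_, b7⟩
    · rw [MulEquiv.orderOf_eq]
      exact b1
    · rw [hc, b2, map_pow]
    · rw [← map_inv, ← map_mul, ← map_mul, b4, map_pow]
    · rw [hc, b6, map_mul, map_pow]
  · right
    right
    left
    intro b d hd
    exact hw b d (CP3.sl e σ _ hd)
  · right
    right
    right
    exact ⟨fun b hb d hd => hw b hb d (CP3.sl e σ _ hd), fun d hd hsl =>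
      hlaw d (CP3.glaw e hd) (fun t => sl_iso e σ t (hsl (e t)))⟩

end iso

end CP4

theorem cp4_thm (hPRD : PRDStmt) (hCHG : CHGStmt) (hSEC : SECStmt) (hCYR : CYRStmt)
    (hTRV : TRVStmt) : CP4Stmt := by
  intro p T _ _ hp hgood G _ _ S e y N d v hy hSs hSn hD hL hv
  classical
  set K := Subgroup.normalizer (S : Set G) with hK
  have hKmem : ∀ g, g ∈ K ↔ ∀ t, t ∈ S ↔ g * t * g⁻¹ ∈ S := fun g => Subgroup.mem_normalizer_iff
  have hex : ∃ b, y ^ (p ^ b) ∈ K := ⟨N, by rw [hy]; exact K.one_mem⟩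
  obtain ⟨b, hbK, hbmin⟩ : ∃ b, y ^ (p ^ b) ∈ K ∧ ∀ e < b, y ^ (p ^ e) ∉ K :=
    ⟨Nat.find hex, Nat.find_spec hex, fun e he => Nat.find_min hex he⟩
  obtain ⟨k, hk⟩ : ∃ k, k = p ^ b := ⟨_, rfl⟩
  rw [← hk] at hbK
  have hk0 : 0 < k := by rw [hk]; exact pow_pos hp.pos b
  have hnot : ∀ i, 0 < i → i < k → y ^ i ∉ K := by
    intro i hi hik hmem
    have hg : y ^ (Nat.gcd i (p ^ N)) ∈ K := by
      have h1 : (y ^ (Nat.gcd i (p ^ N)) : G) = (y ^ i) ^ (Nat.gcdA i (p ^ N)) *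
          (y ^ (p ^ N)) ^ (Nat.gcdB i (p ^ N)) := by
        rw [← zpow_natCast, Nat.gcd_eq_gcd_ab, zpow_add, zpow_mul, zpow_mul, zpow_natCast,
          zpow_natCast]
      rw [h1, hy, one_zpow, mul_one]
      exact K.zpow_mem hmem _
    obtain ⟨e, -, he⟩ := (Nat.dvd_prime_pow hp).mp (Nat.gcd_dvd_right i (p ^ N))
    rw [he] at hg
    have h2 : p ^ e ∣ i := he ▸ Nat.gcd_dvd_left i (p ^ N)
    have h3 : p ^ e < p ^ b := by
      rw [← hk]
      exact lt_of_le_of_lt (Nat.le_of_dvd hi h2) hik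
    have h4 : e < b := (Nat.pow_lt_pow_iff_right hp.one_lt).mp h3
    exact hbmin e h4 hg
  have hkK := (hKmem _).1 hbK
  have hnotK : ∀ i, 0 < i → i < k → ¬ ∀ x, x ∈ S ↔ y ^ i * x * (y ^ i)⁻¹ ∈ S := by
    intro i hi hik h
    exact hnot i hi hik ((hKmem _).2 h)
  have hcenS : ¬ ∀ a c : S, a * c = c * a := by
    intro h
    apply hSn
    intro a ha c hc
    exact congrArg Subtype.val (h ⟨a, ha⟩ ⟨c, hc⟩)
  have hcen : ∀ t ∈ S, (∀ s ∈ S, s * t = t * s) → t = 1 := by
    intro t ht hs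
    have h1 : (⟨t, ht⟩ : S) ∈ Subgroup.center S := by
      rw [Subgroup.mem_center_iff]
      intro g
      exact Subtype.ext (hs g g.2)
    rcases hSs.eq_bot_or_eq_top_of_normal (Subgroup.center S) inferInstance with h2 | h2
    · rw [h2, Subgroup.mem_bot] at h1
      exact congrArg Subtype.val h1
    · exfalso
      apply hSn
      intro a ha b hb
      have h3 : (⟨b, hb⟩ : S) ∈ Subgroup.center S := by rw [h2]; exact Subgroup.mem_top _
      rw [Subgroup.mem_center_iff] at h3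
      exact congrArg Subtype.val (h3 ⟨a, ha⟩)
  -- the automorphism
  have hres : ∀ t, t ∈ S ↔ MulAut.conj (y ^ k)⁻¹ t ∈ S := by
    intro t
    rw [MulAut.conj_apply]
    have h1 := K.inv_mem hbK
    rw [hKmem] at h1
    exact h1 t
  obtain ⟨α, hαdef⟩ : ∃ α : MulAut S, α = restr (MulAut.conj (y ^ k)⁻¹) S hres := ⟨_, rfl⟩
  have hα : ∀ t : S, ((α t : S) : G) = (y ^ k)⁻¹ * t * y ^ k := by
    intro t
    rw [hαdef]
    show MulAut.conj (y ^ k)⁻¹ (t : G) = _
    rw [MulAut.conj_apply, inv_inv]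
  have hαm : ∀ (m : ℕ) (t : S), (((α ^ m) t : S) : G) = ((y ^ k) ^ m)⁻¹ * t * (y ^ k) ^ m := by
    intro m t
    rw [hαdef, restr_pow_apply, ← map_pow, MulAut.conj_apply, inv_pow, inv_inv]
  have hαN : α ^ (p ^ N) = 1 := by
    ext t
    rw [hαm, ← pow_mul, mul_comm k, pow_mul, hy, one_pow]
    simp
  have hSL : SL (tsh α k) d :=
    hPRD G y S k hk0 hD hcen hkK hnotK α hα d (hL.sl y)
  have hSLt : b = 0 → ∀ t : S, SL (MulAut.conj t * α) d := by
    intro hb0 t
    have hk1 : k = 1 := by rw [hk, hb0, pow_zero]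
    refine SL.of_inj S.subtype S.subtype_injective ?_ (hL.sl (y * (t : G)⁻¹))
    intro x
    show ((((MulAut.conj t * α) x : S)) : G) = MulAut.conj (y * (t : G)⁻¹)⁻¹ (x : G)
    rw [MulAut.mul_apply, MulAut.conj_apply, MulAut.conj_apply, Subgroup.coe_mul,
      Subgroup.coe_mul, Subgroup.coe_inv, hα x, hk1, pow_one]
    group
  have hexc : ∃ c, α ^ (p ^ c) = 1 := ⟨N, hαN⟩
  obtain ⟨c0, hc1, hc2⟩ : ∃ c, α ^ (p ^ c) = 1 ∧ ∀ e < c, α ^ (p ^ e) ≠ 1 :=
    ⟨Nat.find hexc, Nat.find_spec hexc, fun e he => Nat.find_min hexc he⟩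
  have hclaim : p ^ (b + c0) ∣ ed d := by
    rcases Nat.eq_zero_or_pos c0 with h0 | h0
    · subst h0
      have hα1 : α = 1 := by rwa [pow_zero, pow_one] at hc1
      rw [hα1, hk] at hSL
      rw [add_zero]
      exact hTRV S p b hp hSs hcenS d hSL
    · obtain ⟨m, rfl⟩ : ∃ m, c0 = m + 1 := ⟨c0 - 1, by omega⟩
      have hne : α ^ (p ^ m) ≠ 1 := hc2 m (by omega)
      have hgS : Good4 p S := CP4.good4_iso e.symm hgood
      rcases hgS α N m hαN hne with hsec | ⟨t, c, hmc, hcyc, hlaw⟩ | hw | ⟨hw, hlaw⟩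
      · have h1 := hSEC S p m N α hp hαN hsec b d (by rw [← hk]; exact hSL)
        exact h1
      · rcases Nat.eq_zero_or_pos b with hb0 | hb0
        · rw [hb0, zero_add]
          exact hlaw d (glaw_subgroup hL S) (hSLt hb0)
        · have hp2 : p ≠ 2 := cyc_ne_two (by omega) hcyc
          have ht' : ((t : G))⁻¹ ∈ S := S.inv_mem t.2
          obtain ⟨g1, g2, g3⟩ := hCHG G y (t : G)⁻¹ S k hk0 hD ht' hkK hnotK
          have hSL' : SL (tsh (MulAut.conj t * α) k) d := by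
            refine hPRD G (y * (t : G)⁻¹) S k hk0 hD hcen g1 g2 (MulAut.conj t * α) ?_ d
              (hL.sl _)
            intro x
            rw [g3 x x.2, MulAut.mul_apply, MulAut.conj_apply, ← hα x, inv_inv]
            rfl
          rw [hk] at hSL'
          have h1 := hCYR S p b c (MulAut.conj t * α) hp hp2 hb0 (by omega) hcyc d hSL'
          exact dvd_trans (pow_dvd_pow p (by omega)) (dvd_trans h1 (dvd_ed d))
      · exact hw b d (by rw [← hk]; exact hSL)
      · rcases Nat.eq_zero_or_pos b with hb0 | hb0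
        · rw [hb0, zero_add]
          exact hlaw d (glaw_subgroup hL S) (hSLt hb0)
        · exact hw b hb0 d (by rw [← hk]; exact hSL)
  have hbc : b + c0 ≤ v := by
    by_contra hcon
    push Not at hcon
    exact hv (dvd_trans (pow_dvd_pow p (by omega)) hclaim)
  have hyv : y ^ (p ^ v) = (y ^ k) ^ (p ^ (v - b)) := by
    rw [← pow_mul, hk, ← pow_add]
    congr 2
    omega
  have hαv : α ^ (p ^ (v - b)) = 1 := by
    obtain ⟨f, hf⟩ := Nat.exists_eq_add_of_le (show c0 ≤ v - b by omega)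
    rw [hf, pow_add, pow_mul, hc1, one_pow]
  intro t ht
  have h1 := hαm (p ^ (v - b)) ⟨t, ht⟩
  rw [hαv, ← hyv] at h1
  have h2 : t = (y ^ (p ^ v))⁻¹ * t * y ^ (p ^ v) := h1
  calc y ^ (p ^ v) * t = y ^ (p ^ v) * ((y ^ (p ^ v))⁻¹ * t * y ^ (p ^ v)) := by rw [← h2]
    _ = t * y ^ (p ^ v) := by group

end Pool.ENR
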